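import Pool.Agent.U145.BC.Main

/-!
# Approximating densities of absolutely continuous Bernoulli convolutions

If the Bernoulli convolution `ν_β`, `1 < β < 2`, is absolutely continuous, then `f_n(x) → h_β(x)` for
Lebesgue almost every `x`, where `h_β` is the density of `ν_β`.

Outline of the proof. Let `T g (x) = (β / 2) (g(β x) + g(β x - 1))`, so `f_n = T ^ n f_0`.

1. (`Meas`, `Ker`) For `ψ` with quadratic decay `T ^ n (ψ * ν_β) (x)` is the convolution of `ν_β` with
   the kernel `β ^ n ψ(β ^ n y)`, which tends to `h_β(x) ∫ ψ` at every Lebesgue point `x` of `h_β`. The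
   same comparison gives a bound of `T ^ n g (x)` which is uniform in `n` and in the dilations of `g`.
2. (`Freq`) Let `g` be a function whose Fourier transform is smooth and has compact support. If
   the Fourier transform of `ν_β` has no zero there, `g` is of the form `ψ * ν_β`. There are only
   finitely many zeros `ζ` in the support, and the part of `g` with frequencies in a small
   neighbourhood of `ζ` is negligible: `T ^ j` maps `e ^ {2 π i ζ x} G(δ x)` for small `δ` nearly to
   `β ^ j a_j(ζ) e ^ {2 π i ζ β ^ j x} G(δ β ^ j x)`, where `|a_j(ζ)| = ∏_{i < j} |cos(π ζ β ^ i)|`.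
3. (`Four`, `Arith`) `a_j(ζ) → 0` for all `ζ ≠ 0`. Otherwise the sum of `sin(π ζ β ^ i) ^ 2` is finite;
   the same is true for `2 ζ` and all `(1 + β) ^ r ζ`, and by the lemma of Riemann and Lebesgue for
   `ν_β` some `ζ' β ^ i` is a zero of the Fourier transform for each of these numbers `ζ'`, so
   `ζ' = β ^ l m / 2` with an odd number `m`. This is impossible: `β ^ n` and `(1 + β) ^ n` are rational
   for some `n > 0`, hence `β` is rational, and the powers of `1 + β` or `1 + 1 / β` would have
   a common denominator, so one of these numbers would be an integer.
4. (`Main`) The smooth functions with compact support are approximated by such `g`, and `f_0` lies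
   between two smooth functions with nearly the same integrals.
-/

set_option autoImplicit false

namespace Pool.Agent.Results.MP_ddcbd8_an.PointwiseLimit

open MeasureTheory Filter Topology
open Pool.Agent.Results.MP_ddcbd8_an.SingularDensities (bernoulliConv f)

/-- **If the Bernoulli convolution `ν_β` is absolutely continuous, then `f_n(x)` converges to its
density `h_β(x)` for almost every `x`.** -/
theorem result (β : ℝ) (hβ : 1 < β) (hβ2 : β < 2) (hν : bernoulliConv β ≪ volume) :
    ∀ᵐ x ∂(volume : Measure ℝ), Tendsto (fun n => f β n x) atTop
      (𝓝 ((bernoulliConv β).rnDeriv volume x).toReal) :=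
  Pool.Agent.U145.BC.main hβ hβ2 hν

end Pool.Agent.Results.MP_ddcbd8_an.PointwiseLimit
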